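import Mathlib

set_option autoImplicit false

/-!
# The strong vertex span exceeds the strong edge span by at most one

Two walkers move on a finite connected graph `H`. If they can visit all vertices and keep the
distance `m`, then they can traverse all edges and keep the distance `m - 1`: whenever the first
walker is at `u`, the second walker waits and the first walker traverses all edges at `u`, forth
and back; and the same with the roles exchanged. So the difference of the two spans is at most `1`.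

It is `1` for the graph with the vertices `0, ..., 5`, the triangle `3, 4, 5` and the edges
`03, 04, 13, 15, 24, 25`. Here the vertex `2` is the only one at distance at least `2` from `3`, and
the vertex `1` is the only one at distance at least `2` from `4`, and these are not adjacent; so
nobody can traverse the edge `34` while keeping the distance `2`.
-/

namespace Pool.Agent.Results.MP_5796a1_co.SpanGapIsOne

open SimpleGraph Relation

/-- `f` is a weak homomorphism from `G` to `H`: the ends of every edge of `G` are mapped to the same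
vertex or to the ends of an edge of `H`. -/
def IsWeakHom {V W : Type} (G : SimpleGraph V) (H : SimpleGraph W) (f : V → W) : Prop :=
  ∀ u v, G.Adj u v → f u = f v ∨ H.Adj (f u) (f v)

/-- `f` is surjective and every edge `u v` of `H` is `f x, f y` for some edge `x y` of `G`. -/
def IsEdgeSurjective {V W : Type} (G : SimpleGraph V) (H : SimpleGraph W) (f : V → W) : Prop :=
  Function.Surjective f ∧ ∀ u v, H.Adj u v → ∃ x y, G.Adj x y ∧ f x = u ∧ f y = v

/-- `m_G(f, g)`, the minimum of the distance of `f x` and `g x` over all vertices `x` of `G`. -/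
noncomputable def minDist {V W : Type} (H : SimpleGraph W) (f g : V → W) : ℕ :=
  ⨅ x, H.dist (f x) (g x)

/-- The strong vertex span: the maximum of `minDist H f g` over all paths with `n + 1` vertices,
`n ≥ 0`, and all pairs of surjective weak homomorphisms `f`, `g` from the path to `H`. -/
noncomputable def strongVertexSpan {W : Type} (H : SimpleGraph W) : ℕ :=
  sSup {m | ∃ (n : ℕ) (f g : Fin (n + 1) → W),
    IsWeakHom (pathGraph (n + 1)) H f ∧ IsWeakHom (pathGraph (n + 1)) H g ∧
    Function.Surjective f ∧ Function.Surjective g ∧ m = minDist H f g}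

/-- The strong edge span: the maximum of `minDist H f g` over all paths with `n + 1` vertices,
`n ≥ 0`, and all pairs of edge surjective weak homomorphisms `f`, `g` from the path to `H`. -/
noncomputable def strongEdgeSpan {W : Type} (H : SimpleGraph W) : ℕ :=
  sSup {m | ∃ (n : ℕ) (f g : Fin (n + 1) → W),
    IsWeakHom (pathGraph (n + 1)) H f ∧ IsWeakHom (pathGraph (n + 1)) H g ∧
    IsEdgeSurjective (pathGraph (n + 1)) H f ∧ IsEdgeSurjective (pathGraph (n + 1)) H g ∧
    m = minDist H f g}

section Runs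

variable {S : Type}

/-- `F 0, ..., F N` is a chain for the relation `R`. -/
def IsRun (R : S → S → Prop) (F : ℕ → S) (N : ℕ) : Prop := ∀ i < N, R (F i) (F (i + 1))

/-- The pair `p` occurs as two consecutive members of `F 0, ..., F N`. -/
def Covers (F : ℕ → S) (N : ℕ) (p : S × S) : Prop := ∃ i < N, F i = p.1 ∧ F (i + 1) = p.2

lemma append (R : S → S → Prop) {F G : ℕ → S} {N M : ℕ} (hF : IsRun R F N) (hG : IsRun R G M)
    (h : F N = G 0) : ∃ K : ℕ → S, IsRun R K (N + M) ∧ K 0 = F 0 ∧ K (N + M) = G M ∧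
      (∀ p, Covers F N p → Covers K (N + M) p) ∧ (∀ p, Covers G M p → Covers K (N + M) p) := by
  set K : ℕ → S := fun i => if i ≤ N then F i else G (i - N) with hK
  have h1 : ∀ i ≤ N, K i = F i := fun i hi => by simp [hK, hi]
  have h2 : ∀ j, K (N + j) = G j := by
    intro j
    rcases Nat.eq_zero_or_pos j with rfl | hj
    · simp only [add_zero]
      rw [h1 N le_rfl, h]
    · have : ¬ N + j ≤ N := by omega
      simp [hK, this]
  refine ⟨K, ?_, h1 0 (Nat.zero_le _), h2 M, ?_, ?_⟩
  · intro i hi
    rcases lt_or_ge i N with h3 | h3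
    · rw [h1 i h3.le, h1 (i + 1) h3]
      exact hF i h3
    · obtain ⟨j, rfl⟩ := Nat.exists_eq_add_of_le h3
      rw [h2 j, add_assoc, h2 (j + 1)]
      exact hG j (by omega)
  · rintro p ⟨i, hi, h3, h4⟩
    exact ⟨i, by omega, by rw [h1 i hi.le, h3], by rw [h1 (i + 1) hi, h4]⟩
  · rintro p ⟨j, hj, h3, h4⟩
    exact ⟨N + j, by omega, by rw [h2, h3], by rw [add_assoc, h2, h4]⟩

lemma exists_run {R : S → S → Prop} {a b : S} (h : ReflTransGen R a b) :
    ∃ (F : ℕ → S) (N : ℕ), IsRun R F N ∧ F 0 = a ∧ F N = b := by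
  induction h with
  | refl => exact ⟨fun _ => a, 0, fun i hi => absurd hi (Nat.not_lt_zero i), rfl, rfl⟩
  | @tail b c _ hbc ih =>
    obtain ⟨F, N, hF, h0, hN⟩ := ih
    obtain ⟨K, hK, hK0, hKN, -, -⟩ := append R (N := N) (M := 1) hF
      (G := fun i => if i = 0 then b else c)
      (by
        intro i hi
        obtain rfl : i = 0 := by omega
        simpa using hbc)
      (by simpa using hN)
    exact ⟨K, N + 1, hK, by rw [hK0, h0], by rw [hKN]; simp⟩

lemma reach_symm {R : S → S → Prop} (hR : ∀ x y, R x y → R y x) {a b : S}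
    (h : ReflTransGen R a b) : ReflTransGen R b a := by
  induction h with
  | refl => exact ReflTransGen.refl
  | tail _ hbc ih => exact ReflTransGen.head (hR _ _ hbc) ih

lemma cover {R : S → S → Prop} (hR : ∀ x y, R x y → R y x) (s : S) :
    ∀ L : List (S × S), (∀ p ∈ L, R p.1 p.2 ∧ ReflTransGen R s p.1) →
      ∃ (F : ℕ → S) (N : ℕ), IsRun R F N ∧ F 0 = s ∧ F N = s ∧ ∀ p ∈ L, Covers F N p := by
  intro L
  induction L with
  | nil => exact fun _ => ⟨fun _ => s, 0, fun i hi => absurd hi (Nat.not_lt_zero i), rfl, rfl,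
      fun p hp => by simp at hp⟩
  | cons p L ih =>
    intro h
    obtain ⟨F, N, hF, hF0, hFN, hFL⟩ := ih (fun q hq => h q (List.mem_cons_of_mem _ hq))
    obtain ⟨hp, hsp⟩ := h p List.mem_cons_self
    obtain ⟨A, a, hA, hA0, hAa⟩ := exists_run hsp
    have hback : ReflTransGen R p.2 s := by
      exact ReflTransGen.head (hR _ _ hp) (reach_symm hR hsp)
    obtain ⟨B, b, hB, hB0, hBb⟩ := exists_run hback
    obtain ⟨K1, hK1, hK10, hK1N, c1, -⟩ := append R hF hA (by rw [hFN, hA0])
    obtain ⟨K2, hK2, hK20, hK2N, c2, c2'⟩ := append R (M := 1) hK1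
      (G := fun i => if i = 0 then p.1 else p.2)
      (by
        intro i hi
        obtain rfl : i = 0 := by omega
        simpa using hp)
      (by rw [hK1N, hAa]; simp)
    obtain ⟨K3, hK3, hK30, hK3N, c3, -⟩ := append R hK2 hB (by rw [hK2N, hB0]; simp)
    refine ⟨K3, _, hK3, by rw [hK30, hK20, hK10, hF0], by rw [hK3N, hBb], ?_⟩
    intro q hq
    rcases List.mem_cons.1 hq with rfl | hq
    · exact c3 _ (c2' _ ⟨0, by norm_num, by simp, by simp⟩)
    · exact c3 _ (c2 _ (c1 _ (hFL q hq)))

end Runs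

section Bounds

variable {W : Type} [Fintype W] (H : SimpleGraph W)

/-- The relation between two pairs of positions with distance at least `r` which can follow each
other. -/
def Step (r : ℕ) (p q : W × W) : Prop :=
  (p.1 = q.1 ∨ H.Adj p.1 q.1) ∧ (p.2 = q.2 ∨ H.Adj p.2 q.2) ∧
    r ≤ H.dist p.1 p.2 ∧ r ≤ H.dist q.1 q.2

omit [Fintype W] in
lemma step_symm (r : ℕ) : ∀ p q, Step H r p q → Step H r q p := by
  rintro p q ⟨h1, h2, h3, h4⟩
  exact ⟨h1.imp Eq.symm SimpleGraph.Adj.symm, h2.imp Eq.symm SimpleGraph.Adj.symm, h4, h3⟩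

omit [Fintype W] in
lemma minDist_le {n : ℕ} (f g : Fin (n + 1) → W) (x : Fin (n + 1)) :
    minDist H f g ≤ H.dist (f x) (g x) :=
  ciInf_le ⟨0, by rintro _ ⟨y, rfl⟩; exact Nat.zero_le _⟩ x

omit [Fintype W] in
lemma le_minDist {n : ℕ} (f g : Fin (n + 1) → W) (r : ℕ) (h : ∀ x, r ≤ H.dist (f x) (g x)) :
    r ≤ minDist H f g :=
  le_ciInf h

lemma bdd (P : (n : ℕ) → (Fin (n + 1) → W) → (Fin (n + 1) → W) → Prop) :
    BddAbove {m | ∃ (n : ℕ) (f g : Fin (n + 1) → W), P n f g ∧ m = minDist H f g} := by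
  refine ⟨Finset.univ.sup (fun p : W × W => H.dist p.1 p.2), ?_⟩
  rintro m ⟨n, f, g, -, rfl⟩
  exact (minDist_le H f g 0).trans
    (Finset.le_sup (f := fun p : W × W => H.dist p.1 p.2) (Finset.mem_univ (f 0, g 0)))

lemma bddV : BddAbove {m | ∃ (n : ℕ) (f g : Fin (n + 1) → W),
    IsWeakHom (pathGraph (n + 1)) H f ∧ IsWeakHom (pathGraph (n + 1)) H g ∧
    Function.Surjective f ∧ Function.Surjective g ∧ m = minDist H f g} := by
  refine (bdd H (fun _ _ _ => True)).mono ?_
  rintro m ⟨n, f, g, -, -, -, -, h⟩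
  exact ⟨n, f, g, trivial, h⟩

lemma bddE : BddAbove {m | ∃ (n : ℕ) (f g : Fin (n + 1) → W),
    IsWeakHom (pathGraph (n + 1)) H f ∧ IsWeakHom (pathGraph (n + 1)) H g ∧
    IsEdgeSurjective (pathGraph (n + 1)) H f ∧ IsEdgeSurjective (pathGraph (n + 1)) H g ∧
    m = minDist H f g} := by
  refine (bdd H (fun _ _ _ => True)).mono ?_
  rintro m ⟨n, f, g, -, -, -, -, h⟩
  exact ⟨n, f, g, trivial, h⟩

omit [Fintype W] in
/-- A run of pairs of positions gives two weak homomorphisms of a path. -/
lemma of_run {r N : ℕ} {F : ℕ → W × W} (hF : IsRun (Step H r) F N) :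
    IsWeakHom (pathGraph (N + 1)) H (fun i => (F i).1) ∧
      IsWeakHom (pathGraph (N + 1)) H (fun i => (F i).2) := by
  constructor
  · intro u v huv
    rw [pathGraph_adj] at huv
    rcases huv with h | h
    · have h1 := (hF u (by have := v.2; omega)).1
      rw [h] at h1
      exact h1
    · have h1 := (hF v (by have := u.2; omega)).1
      rw [h] at h1
      exact h1.imp Eq.symm SimpleGraph.Adj.symm
  · intro u v huv
    rw [pathGraph_adj] at huv
    rcases huv with h | h
    · have h1 := (hF u (by have := v.2; omega)).2.1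
      rw [h] at h1
      exact h1
    · have h1 := (hF v (by have := u.2; omega)).2.1
      rw [h] at h1
      exact h1.imp Eq.symm SimpleGraph.Adj.symm

theorem vertexSpan_le (hH : H.Connected) : strongVertexSpan H ≤ strongEdgeSpan H + 1 := by
  classical
  rcases Set.eq_empty_or_nonempty {m | ∃ (n : ℕ) (f g : Fin (n + 1) → W),
    IsWeakHom (pathGraph (n + 1)) H f ∧ IsWeakHom (pathGraph (n + 1)) H g ∧
    Function.Surjective f ∧ Function.Surjective g ∧ m = minDist H f g} with hE | hE
  · unfold strongVertexSpan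
    rw [hE]
    simp
  obtain ⟨n, f, g, hf, hg, sf, sg, hm⟩ := Nat.sSup_mem hE (bddV H)
  change strongVertexSpan H = _ at hm
  obtain ⟨m, hmm⟩ : ∃ m, m = strongVertexSpan H := ⟨_, rfl⟩
  rw [← hmm] at hm ⊢
  rcases Nat.eq_zero_or_pos m with h0 | hpos
  · omega
  obtain ⟨r, hr⟩ : ∃ r, r = m - 1 := ⟨_, rfl⟩
  have hd : ∀ x, m ≤ H.dist (f x) (g x) := fun x => by rw [hm]; exact minDist_le H f g x
  -- all pairs of positions are reachable
  have hreach : ∀ i : ℕ, ∀ hi : i < n + 1,
      ReflTransGen (Step H r) (f 0, g 0) (f ⟨i, hi⟩, g ⟨i, hi⟩) := by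
    intro i
    induction i with
    | zero => exact fun _ => ReflTransGen.refl
    | succ i ih =>
      intro hi
      refine ReflTransGen.tail (ih (by omega)) ⟨?_, ?_, ?_, ?_⟩
      · exact hf _ _ (by rw [pathGraph_adj]; left; rfl)
      · exact hg _ _ (by rw [pathGraph_adj]; left; rfl)
      · exact le_trans (by omega) (hd _)
      · exact le_trans (by omega) (hd _)
  choose a ha using sf
  choose b hb using sg
  set E1 : W × W → (W × W) × (W × W) := fun p =>
    ((p.1, g (a p.1)), (if H.Adj p.1 p.2 then p.2 else p.1, g (a p.1))) with hE1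
  set E2 : W × W → (W × W) × (W × W) := fun p =>
    ((f (b p.1), p.1), (f (b p.1), if H.Adj p.1 p.2 then p.2 else p.1)) with hE2
  have key : ∀ u v w : W, H.Adj u v → m ≤ H.dist u w → r ≤ H.dist v w := by
    intro u v w huv h
    have h1 := hH.dist_triangle (u := u) (v := v) (w := w)
    rw [SimpleGraph.dist_eq_one_iff_adj.2 huv] at h1
    omega
  have hL : ∀ p ∈ (Finset.univ : Finset (W × W)).toList.map E1 ++
      (Finset.univ : Finset (W × W)).toList.map E2,
      Step H r p.1 p.2 ∧ ReflTransGen (Step H r) (f 0, g 0) p.1 := by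
    intro p hp
    rw [List.mem_append, List.mem_map, List.mem_map] at hp
    rcases hp with ⟨⟨u, v⟩, -, rfl⟩ | ⟨⟨u, v⟩, -, rfl⟩
    · have h1 : m ≤ H.dist u (g (a u)) := by
        have := hd (a u)
        rwa [ha] at this
      have h2 := hreach (a u).1 (a u).2
      simp only [Fin.eta, ha] at h2
      refine ⟨⟨?_, Or.inl rfl, ?_, ?_⟩, h2⟩
      · by_cases h : H.Adj u v
        · right; simp [hE1, h]
        · left; simp [hE1, h]
      · exact le_trans (by omega) h1
      · by_cases h : H.Adj u v
        · simpa [hE1, h] using key u v _ h h1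
        · simp only [hE1, h, if_false]
          exact le_trans (by omega) h1
    · have h1 : m ≤ H.dist (f (b u)) u := by
        have := hd (b u)
        rwa [hb] at this
      have h2 := hreach (b u).1 (b u).2
      simp only [Fin.eta, hb] at h2
      refine ⟨⟨Or.inl rfl, ?_, ?_, ?_⟩, h2⟩
      · by_cases h : H.Adj u v
        · right; simp [hE2, h]
        · left; simp [hE2, h]
      · exact le_trans (by omega) h1
      · by_cases h : H.Adj u v
        · have h3 := key u v (f (b u)) h (by rw [SimpleGraph.dist_comm]; exact h1)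
          simp only [hE2, h, if_true]
          rw [SimpleGraph.dist_comm]
          exact h3
        · simp only [hE2, h, if_false]
          exact le_trans (by omega) h1
  obtain ⟨F, N, hF, hF0, hFN, hcov⟩ := cover (step_symm H r) _ _ hL
  have hdist : ∀ i ≤ N, r ≤ H.dist (F i).1 (F i).2 := by
    intro i hi
    rcases Nat.eq_zero_or_pos i with rfl | h
    · rw [hF0]
      exact le_trans (by omega) (hd 0)
    · have h1 := (hF (i - 1) (by omega)).2.2.2
      rwa [Nat.sub_add_cancel h] at h1
  obtain ⟨w1, w2⟩ := of_run H hF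
  have hadj : ∀ i : ℕ, ∀ hi : i < N,
      (pathGraph (N + 1)).Adj ⟨i, by omega⟩ ⟨i + 1, by omega⟩ := by
    intro i hi
    rw [pathGraph_adj]
    left
    rfl
  have hc1 : ∀ u v : W, ∃ i, ∃ _ : i < N, (F i).1 = u ∧
      (H.Adj u v → (F (i + 1)).1 = v) := by
    intro u v
    obtain ⟨i, hi, h1, h2⟩ := hcov (E1 (u, v)) (by
      rw [List.mem_append]
      left
      exact List.mem_map_of_mem (by simp))
    refine ⟨i, hi, by rw [h1], fun h => by rw [h2]; simp [hE1, h]⟩
  have hc2 : ∀ u v : W, ∃ i, ∃ _ : i < N, (F i).2 = u ∧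
      (H.Adj u v → (F (i + 1)).2 = v) := by
    intro u v
    obtain ⟨i, hi, h1, h2⟩ := hcov (E2 (u, v)) (by
      rw [List.mem_append]
      right
      exact List.mem_map_of_mem (by simp))
    refine ⟨i, hi, by rw [h1], fun h => by rw [h2]; simp [hE2, h]⟩
  have hmem : minDist H (fun i : Fin (N + 1) => (F i).1) (fun i : Fin (N + 1) => (F i).2) ≤
      strongEdgeSpan H := by
    refine le_csSup (bddE H) ⟨N, _, _, w1, w2, ⟨?_, ?_⟩, ⟨?_, ?_⟩, rfl⟩
    · intro u
      obtain ⟨i, hi, h1, -⟩ := hc1 u u
      exact ⟨⟨i, by omega⟩, h1⟩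
    · intro u v huv
      obtain ⟨i, hi, h1, h2⟩ := hc1 u v
      exact ⟨⟨i, by omega⟩, ⟨i + 1, by omega⟩, hadj i hi, h1, h2 huv⟩
    · intro u
      obtain ⟨i, hi, h1, -⟩ := hc2 u u
      exact ⟨⟨i, by omega⟩, h1⟩
    · intro u v huv
      obtain ⟨i, hi, h1, h2⟩ := hc2 u v
      exact ⟨⟨i, by omega⟩, ⟨i + 1, by omega⟩, hadj i hi, h1, h2 huv⟩
  have h1 := le_minDist H (fun i : Fin (N + 1) => (F i).1) (fun i : Fin (N + 1) => (F i).2) r
    (fun x => hdist x (by have := x.2; omega))
  omega

end Bounds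

section Example

/-- The adjacency in the graph with six vertices. -/
def adjB (a b : Fin 6) : Bool :=
  decide ((a, b) ∈ ([(0, 3), (0, 4), (1, 3), (1, 5), (2, 4), (2, 5), (3, 4), (3, 5), (4, 5)] :
    List (Fin 6 × Fin 6))) ||
  decide ((b, a) ∈ ([(0, 3), (0, 4), (1, 3), (1, 5), (2, 4), (2, 5), (3, 4), (3, 5), (4, 5)] :
    List (Fin 6 × Fin 6)))

/-- A triangle and three more vertices, each adjacent to two vertices of the triangle. -/
def sun : SimpleGraph (Fin 6) where
  Adj a b := adjB a b = true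
  symm := ⟨by decide⟩
  loopless := ⟨by decide⟩

lemma sun_reach (v : Fin 6) : sun.Reachable 3 v := by
  have h : ∀ a b : Fin 6, adjB a b = true → sun.Reachable a b :=
    fun a b h => SimpleGraph.Adj.reachable (show sun.Adj a b from h)
  fin_cases v
  · exact h 3 0 (by decide)
  · exact h 3 1 (by decide)
  · exact (h 3 4 (by decide)).trans (h 4 2 (by decide))
  · exact SimpleGraph.Reachable.refl _
  · exact h 3 4 (by decide)
  · exact h 3 5 (by decide)

lemma sun_connected : sun.Connected := by
  have : Nonempty (Fin 6) := ⟨0⟩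
  exact ⟨fun u v => (sun_reach u).symm.trans (sun_reach v)⟩

lemma two_le_dist {u v : Fin 6} : 2 ≤ sun.dist u v ↔ u ≠ v ∧ adjB u v = false := by
  have hne : sun.dist u v = 0 ↔ u = v := by
    rw [SimpleGraph.dist_eq_zero_iff_eq_or_not_reachable]
    constructor
    · rintro (h | h)
      · exact h
      · exact absurd ((sun_reach u).symm.trans (sun_reach v)) h
    · exact Or.inl
  have h1 : sun.dist u v = 1 ↔ adjB u v = true := SimpleGraph.dist_eq_one_iff_adj
  constructor
  · intro h
    refine ⟨fun e => ?_, ?_⟩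
    · have := hne.2 e
      omega
    · by_contra hc
      rw [Bool.not_eq_false] at hc
      have := h1.2 hc
      omega
  · rintro ⟨h2, h3⟩
    have h4 : sun.dist u v ≠ 0 := fun h => h2 (hne.1 h)
    have h5 : sun.dist u v ≠ 1 := fun h => by
      have := h1.1 h
      rw [h3] at this
      exact absurd this (by decide)
    omega

/-- The positions of the first walker. -/
def F6 : Fin (9 + 1) → Fin 6 := ![0, 3, 1, 1, 1, 5, 2, 2, 4, 0]

/-- The positions of the second walker. -/
def G6 : Fin (9 + 1) → Fin 6 := ![5, 2, 2, 4, 0, 0, 3, 1, 1, 1]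

lemma two_le_vertexSpan : 2 ≤ strongVertexSpan sun := by
  have hF : ∀ u v : Fin (9 + 1), (u.val + 1 = v.val ∨ v.val + 1 = u.val) →
      (F6 u = F6 v ∨ adjB (F6 u) (F6 v) = true) := by decide
  have hG : ∀ u v : Fin (9 + 1), (u.val + 1 = v.val ∨ v.val + 1 = u.val) →
      (G6 u = G6 v ∨ adjB (G6 u) (G6 v) = true) := by decide
  have sF : ∀ w : Fin 6, ∃ x, F6 x = w := by decide
  have sG : ∀ w : Fin 6, ∃ x, G6 x = w := by decide
  have hd : ∀ x, F6 x ≠ G6 x ∧ adjB (F6 x) (G6 x) = false := by decide
  refine (le_minDist sun F6 G6 2 (fun x => two_le_dist.2 (hd x))).trans ?_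
  refine le_csSup (bddV sun) ⟨9, F6, G6, ?_, ?_, sF, sG, rfl⟩
  · intro u v huv
    rw [pathGraph_adj] at huv
    exact hF u v huv
  · intro u v huv
    rw [pathGraph_adj] at huv
    exact hG u v huv

lemma edgeSpan_le_one : strongEdgeSpan sun ≤ 1 := by
  refine csSup_le' ?_
  rintro m ⟨n, f, g, -, hg, ⟨-, hf⟩, -, rfl⟩
  by_contra hcon
  push Not at hcon
  have hd : ∀ x, 2 ≤ sun.dist (f x) (g x) := fun x => hcon.trans_le (minDist_le sun f g x)
  obtain ⟨x, y, hxy, hx, hy⟩ := hf 3 4 (show adjB 3 4 = true by decide)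
  have h1 := two_le_dist.1 (hd x)
  have h2 := two_le_dist.1 (hd y)
  rw [hx] at h1
  rw [hy] at h2
  have h3 : ∀ w : Fin 6, 3 ≠ w → adjB 3 w = false → w = 2 := by decide
  have h4 : ∀ w : Fin 6, 4 ≠ w → adjB 4 w = false → w = 1 := by decide
  have h5 := hg x y hxy
  rw [h3 _ h1.1 h1.2, h4 _ h2.1 h2.2] at h5
  rcases h5 with h5 | h5
  · exact absurd h5 (by decide)
  · exact absurd (show adjB 2 1 = true from h5) (by decide)

end Example

/-- The maximum of `strongVertexSpan H - strongEdgeSpan H` over all finite connected graphs `H` is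
`1`. -/
theorem result : IsGreatest {δ : ℤ | ∃ (W : Type) (_ : Fintype W) (H : SimpleGraph W),
    H.Connected ∧ δ = (strongVertexSpan H : ℤ) - (strongEdgeSpan H : ℤ)} 1 := by
  constructor
  · refine ⟨Fin 6, inferInstance, sun, sun_connected, ?_⟩
    have h1 := two_le_vertexSpan
    have h2 := edgeSpan_le_one
    have h3 := vertexSpan_le sun sun_connected
    omega
  · rintro δ ⟨W, _, H, hH, rfl⟩
    have h3 := vertexSpan_le H hH
    omega

end Pool.Agent.Results.MP_5796a1_co.SpanGapIsOne
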